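import Mathlib.Analysis.Matrix.Spectrum
import Mathlib.Combinatorics.SimpleGraph.AdjMatrix

/-!
# Matchings and the negative eigenvalues of a graph
-/

set_option autoImplicit false

namespace Pool.Agent.J4H91.SD

open Finset Matrix

variable {V : Type} [Fintype V] [DecidableEq V]

/-- diagonalisation with real functions -/
lemma diag (A : Matrix V V ℝ) (hA : A.IsHermitian) :
    ∃ (lam : V → ℝ) (b : V → V → ℝ),
      (∀ u v, A u v = ∑ i, lam i * (b i u * b i v)) ∧
      (∀ v, ∑ i, b i v ^ 2 = 1) ∧
      (∀ i, ∑ v, b i v ^ 2 = 1) ∧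
      (∀ i v, ∑ u, A v u * b i u = lam i * b i v) ∧
      (univ.filter (fun i => lam i ≠ 0)).card = A.rank := by
  classical
  set U : Matrix V V ℝ := (hA.eigenvectorUnitary : Matrix V V ℝ) with hU
  have h1 : U * Uᵀ = 1 := by
    have := Unitary.coe_mul_star_self hA.eigenvectorUnitary
    rwa [Unitary.coe_star, star_eq_conjTranspose, conjTranspose_eq_transpose_of_trivial] at this
  have h2 : Uᵀ * U = 1 := by
    have := Unitary.coe_star_mul_self hA.eigenvectorUnitary
    rwa [star_eq_conjTranspose, conjTranspose_eq_transpose_of_trivial] at this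
  have h3 : ∀ i v, ∑ u, A v u * U u i = hA.eigenvalues i * U v i := by
    intro i v
    have := congrFun (hA.mulVec_eigenvectorBasis i) v
    simpa [mulVec, dotProduct, hU] using this
  have h4 : ∀ u v, ∑ i, U u i * U v i = if u = v then 1 else 0 := by
    intro u v
    have := congrFun (congrFun h1 u) v
    rw [mul_apply, one_apply] at this
    exact this
  have h5 : ∀ i j, ∑ v, U v i * U v j = if i = j then 1 else 0 := by
    intro i j
    have := congrFun (congrFun h2 i) j
    rw [mul_apply, one_apply] at this
    exact this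
  refine ⟨hA.eigenvalues, fun i v => U v i, ?_, ?_, ?_, h3, ?_⟩
  · intro u v
    have e1 : A u v = ∑ w, A u w * (if w = v then 1 else 0) := by simp
    rw [e1]
    have e2 : ∀ w, A u w * (if w = v then (1 : ℝ) else 0) =
        ∑ i, U v i * (A u w * U w i) := by
      intro w
      rw [← h4 w v, mul_sum]
      refine sum_congr rfl fun i _ => ?_
      ring
    rw [sum_congr rfl fun w _ => e2 w, sum_comm]
    refine sum_congr rfl fun i _ => ?_
    rw [← mul_sum, h3 i u]
    ring
  · intro v
    have := h4 v v
    rw [if_pos rfl] at this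
    rw [← this]
    refine sum_congr rfl fun i _ => ?_
    ring
  · intro i
    have := h5 i i
    rw [if_pos rfl] at this
    rw [← this]
    refine sum_congr rfl fun v _ => ?_
    ring
  · rw [hA.rank_eq_card_non_zero_eigs, Fintype.card_subtype]

/-- a matching in `B` which leaves a stable set -/
lemma matching (G : SimpleGraph V) [DecidableRel G.Adj] : ∀ (n : ℕ) (B : Finset V), B.card = n →
    ∃ (ι : Type) (_ : Fintype ι) (f g : ι → V), Function.Injective f ∧ Function.Injective g ∧
      (∀ i j, f i ≠ g j) ∧ (∀ i, G.Adj (f i) (g i)) ∧ (∀ i, f i ∈ B) ∧ (∀ i, g i ∈ B) ∧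
      ∃ S ⊆ B, (∀ u ∈ S, ∀ v ∈ S, ¬ G.Adj u v) ∧ B.card = 2 * Fintype.card ι + S.card := by
  intro n
  induction n using Nat.strong_induction_on with
  | _ n ih =>
    intro B hB
    by_cases h : ∀ u ∈ B, ∀ v ∈ B, ¬ G.Adj u v
    · refine ⟨Fin 0, inferInstance, Fin.elim0, Fin.elim0, fun i => i.elim0, fun i => i.elim0,
        fun i => i.elim0, fun i => i.elim0, fun i => i.elim0, fun i => i.elim0, B,
        Subset.refl _, h, by simp⟩
    · push Not at h
      obtain ⟨a, ha, c, hc, hac⟩ := h
      have hne : a ≠ c := hac.ne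
      have hca : c ∈ B.erase a := mem_erase.2 ⟨hne.symm, hc⟩
      have hcard : ((B.erase a).erase c).card + 2 = B.card := by
        have h1 := card_erase_add_one ha
        have h2 := card_erase_add_one hca
        omega
      obtain ⟨ι, hι, f, g, hf, hg, hfg, hadj, hfB, hgB, S, hSB, hS, hcS⟩ :=
        ih ((B.erase a).erase c).card (by omega) _ rfl
      have hfB' : ∀ i, f i ∈ B ∧ f i ≠ a ∧ f i ≠ c := fun i => by
        have := hfB i
        simp only [mem_erase] at this
        exact ⟨this.2.2, this.2.1, this.1⟩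
      have hgB' : ∀ i, g i ∈ B ∧ g i ≠ a ∧ g i ≠ c := fun i => by
        have := hgB i
        simp only [mem_erase] at this
        exact ⟨this.2.2, this.2.1, this.1⟩
      refine ⟨Option ι, inferInstance, fun o => o.elim a f, fun o => o.elim c g, ?_, ?_, ?_, ?_,
        ?_, ?_, S, ?_, hS, ?_⟩
      · rintro (_ | i) (_ | j) hij
        · rfl
        · exact absurd hij.symm (hfB' j).2.1
        · exact absurd hij (hfB' i).2.1
        · exact congrArg some (hf hij)
      · rintro (_ | i) (_ | j) hij
        · rfl
        · exact absurd hij.symm (hgB' j).2.2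
        · exact absurd hij (hgB' i).2.2
        · exact congrArg some (hg hij)
      · rintro (_ | i) (_ | j)
        · exact hne
        · exact (hgB' j).2.1.symm
        · exact (hfB' i).2.2
        · exact hfg i j
      · rintro (_ | i)
        · exact hac
        · exact hadj i
      · rintro (_ | i)
        · exact ha
        · exact (hfB' i).1
      · rintro (_ | i)
        · exact hc
        · exact (hgB' i).1
      · exact hSB.trans ((erase_subset _ _).trans (erase_subset _ _))
      · rw [Fintype.card_option]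
        omega

/-- the adjacency matrix of the graph induced on `B`, with zero rows and columns added -/
def resMat (G : SimpleGraph V) [DecidableRel G.Adj] (B : Finset V) : Matrix V V ℝ :=
  fun u v => if u ∈ B ∧ v ∈ B ∧ G.Adj u v then 1 else 0

lemma resMat_rank (G : SimpleGraph V) [DecidableRel G.Adj] (B : Finset V) :
    (resMat G B).rank ≤ (G.adjMatrix ℝ).rank := by
  classical
  have h1 : resMat G B = Matrix.diagonal (fun v => if v ∈ B then (1 : ℝ) else 0) *
      G.adjMatrix ℝ * Matrix.diagonal (fun v => if v ∈ B then (1 : ℝ) else 0) := by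
    ext u v
    rw [Matrix.mul_diagonal, Matrix.diagonal_mul, SimpleGraph.adjMatrix_apply]
    unfold resMat
    by_cases hu : u ∈ B <;> by_cases hv : v ∈ B <;> by_cases h : G.Adj u v <;> simp [hu, hv, h]
  rw [h1]
  exact (Matrix.rank_mul_le_left _ _).trans (Matrix.rank_mul_le_right _ _)

omit [Fintype V] in
lemma resMat_herm (G : SimpleGraph V) [DecidableRel G.Adj] (B : Finset V) :
    (resMat G B).IsHermitian := by
  ext u v
  simp only [conjTranspose_apply, resMat, star_trivial]
  refine if_congr ?_ rfl rfl
  constructor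
  · rintro ⟨h1, h2, h3⟩
    exact ⟨h2, h1, h3.symm⟩
  · rintro ⟨h1, h2, h3⟩
    exact ⟨h2, h1, h3.symm⟩

/-- the energy of a function -/
def en (G : SimpleGraph V) [DecidableRel G.Adj] (x : V → ℝ) : ℝ :=
  ∑ u, ∑ v, if G.Adj u v then x u * x v else 0

/-- **negative eigenvectors of the graph induced on `B`** -/
theorem spec (G : SimpleGraph V) [DecidableRel G.Adj] (r : ℕ) (hr : (G.adjMatrix ℝ).rank ≤ r)
    (B : Finset V) {ι : Type} [Fintype ι] (f g : ι → V) (hf : Function.Injective f)
    (hg : Function.Injective g) (hfg : ∀ i j, f i ≠ g j) (hadj : ∀ i, G.Adj (f i) (g i))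
    (hfB : ∀ i, f i ∈ B) (hgB : ∀ i, g i ∈ B) :
    ∃ z : V → V → ℝ, (∀ v, ∑ i, z i v ^ 2 ≤ 1) ∧ (∑ i, ∑ v, z i v ^ 2 ≤ r) ∧
      (∀ i, ∀ v, v ∉ B → z i v = 0) ∧ ∑ i, en G (z i) ≤ -(Fintype.card ι : ℝ) := by
  classical
  obtain ⟨lam, b, h1, h2, h3, h4, h5⟩ := diag (resMat G B) (resMat_herm G B)
  set z : V → V → ℝ := fun i v => if lam i < 0 then b i v else 0 with hz
  have hsupp : ∀ i, lam i < 0 → ∀ v, v ∉ B → b i v = 0 := by
    intro i hi v hv
    have h6 := h4 i v
    have h7 : ∑ u, resMat G B v u * b i u = 0 := by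
      refine sum_eq_zero fun u _ => ?_
      have : resMat G B v u = 0 := if_neg (fun h => hv h.1)
      rw [this, zero_mul]
    rw [h7] at h6
    rcases mul_eq_zero.1 h6.symm with h | h
    · exact absurd h hi.ne
    · exact h
  refine ⟨z, ?_, ?_, ?_, ?_⟩
  · intro v
    rw [← h2 v]
    refine sum_le_sum fun i _ => ?_
    simp only [hz]
    split_ifs
    · exact le_refl _
    · rw [zero_pow two_ne_zero]
      exact sq_nonneg _
  · have h6 : ∀ i, ∑ v, z i v ^ 2 = if lam i < 0 then 1 else 0 := by
      intro i
      simp only [hz]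
      split_ifs with h
      · exact h3 i
      · simp
    rw [sum_congr rfl fun i _ => h6 i, sum_boole]
    have h7 : (univ.filter (fun i => lam i < 0)).card ≤ r := by
      refine le_trans (card_le_card ?_) (h5.le.trans ((resMat_rank G B).trans hr))
      intro i hi
      rw [mem_filter] at hi ⊢
      exact ⟨hi.1, hi.2.ne⟩
    exact_mod_cast h7
  · intro i v hv
    simp only [hz]
    split_ifs with h
    · exact hsupp i h v hv
    · rfl
  · -- the energies are the eigenvalues
    have h6 : ∀ i, en G (z i) = if lam i < 0 then lam i else 0 := by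
      intro i
      by_cases h : lam i < 0
      · rw [if_pos h]
        have e1 : ∀ u v, (if G.Adj u v then z i u * z i v else 0) =
            b i u * (resMat G B u v * b i v) := by
          intro u v
          simp only [hz, if_pos h, resMat]
          by_cases hu : u ∈ B
          · by_cases hv : v ∈ B
            · by_cases huv : G.Adj u v <;> simp [hu, hv, huv]
            · rw [hsupp i h v hv]
              simp
          · rw [hsupp i h u hu]
            simp
        unfold en
        rw [sum_congr rfl fun u _ => sum_congr rfl fun v _ => e1 u v]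
        simp only [← mul_sum, h4 i]
        have e2 : ∑ u, b i u * (lam i * b i u) = lam i * ∑ u, b i u ^ 2 := by
          rw [mul_sum]
          refine sum_congr rfl fun u _ => ?_
          ring
        rw [e2, h3 i, mul_one]
      · rw [if_neg h]
        unfold en
        refine sum_eq_zero fun u _ => sum_eq_zero fun v _ => ?_
        simp only [hz, if_neg h]
        simp
    rw [sum_congr rfl fun i _ => h6 i]
    -- Bessel
    have h7 : ∀ i, ∑ e, (b i (f e) - b i (g e)) ^ 2 ≤ 2 := by
      intro i
      have e1 : ∀ e, (b i (f e) - b i (g e)) ^ 2 ≤ 2 * (b i (f e) ^ 2 + b i (g e) ^ 2) := by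
        intro e
        nlinarith [sq_nonneg (b i (f e) + b i (g e))]
      have e2 : ∑ e, (b i (f e) ^ 2 + b i (g e) ^ 2) ≤ ∑ v, b i v ^ 2 := by
        rw [sum_add_distrib]
        have e3 : ∑ e, b i (f e) ^ 2 = ∑ v ∈ univ.image f, b i v ^ 2 := by
          rw [sum_image (fun x _ y _ h => hf h)]
        have e4 : ∑ e, b i (g e) ^ 2 = ∑ v ∈ univ.image g, b i v ^ 2 := by
          rw [sum_image (fun x _ y _ h => hg h)]
        rw [e3, e4, ← sum_union]
        · exact sum_le_univ_sum_of_nonneg fun v => sq_nonneg _
        · rw [disjoint_left]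
          intro v hv hv'
          obtain ⟨x, _, hx⟩ := mem_image.1 hv
          obtain ⟨y, _, hy⟩ := mem_image.1 hv'
          exact hfg x y (hx.trans hy.symm)
      calc ∑ e, (b i (f e) - b i (g e)) ^ 2 ≤ ∑ e, 2 * (b i (f e) ^ 2 + b i (g e) ^ 2) :=
            sum_le_sum fun e _ => e1 e
        _ = 2 * ∑ e, (b i (f e) ^ 2 + b i (g e) ^ 2) := by rw [mul_sum]
        _ ≤ 2 * 1 := by
            rw [← h3 i]
            linarith
        _ = 2 := by ring
    have h8 : ∀ e, ∑ i, lam i * (b i (f e) - b i (g e)) ^ 2 = -2 := by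
      intro e
      have e1 := h1 (f e) (f e)
      have e2 := h1 (g e) (g e)
      have e3 := h1 (f e) (g e)
      have e4 : resMat G B (f e) (f e) = 0 := if_neg (fun h => h.2.2.ne rfl)
      have e5 : resMat G B (g e) (g e) = 0 := if_neg (fun h => h.2.2.ne rfl)
      have e6 : resMat G B (f e) (g e) = 1 := if_pos ⟨hfB e, hgB e, hadj e⟩
      rw [e4] at e1
      rw [e5] at e2
      rw [e6] at e3
      have e7 : ∑ i, lam i * (b i (f e) - b i (g e)) ^ 2 =
          ∑ i, lam i * (b i (f e) * b i (f e)) + ∑ i, lam i * (b i (g e) * b i (g e)) -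
            2 * ∑ i, lam i * (b i (f e) * b i (g e)) := by
        rw [mul_sum, ← sum_add_distrib, ← sum_sub_distrib]
        refine sum_congr rfl fun i _ => ?_
        ring
      rw [e7, ← e1, ← e2, ← e3]
      ring
    have h9 : ∑ e, ∑ i, lam i * (b i (f e) - b i (g e)) ^ 2 = -2 * (Fintype.card ι : ℝ) := by
      rw [sum_congr rfl fun e _ => h8 e, sum_const, nsmul_eq_mul, card_univ]
      ring
    rw [sum_comm] at h9
    have h10 : ∀ i, 2 * (if lam i < 0 then lam i else 0) ≤
        ∑ e, lam i * (b i (f e) - b i (g e)) ^ 2 := by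
      intro i
      rw [← mul_sum]
      have h0 : 0 ≤ ∑ e, (b i (f e) - b i (g e)) ^ 2 := sum_nonneg fun e _ => sq_nonneg _
      split_ifs with h
      · nlinarith [h7 i]
      · push Not at h
        rw [mul_zero]
        exact mul_nonneg h h0
    have h11 := sum_le_sum fun i (_ : i ∈ (univ : Finset V)) => h10 i
    rw [h9, ← mul_sum] at h11
    linarith

end Pool.Agent.J4H91.SD
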