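import Pool.Agent.J4H91.SD.Spec

/-!
# Many small negative pieces
-/

set_option autoImplicit false

namespace Pool.Agent.J4H91.SD

open Finset Matrix

variable {V : Type} [Fintype V] [DecidableEq V]

omit [DecidableEq V] in
lemma en_smul (G : SimpleGraph V) [DecidableRel G.Adj] (c : ℝ) (x : V → ℝ) :
    en G (fun v => c * x v) = c ^ 2 * en G x := by
  unfold en
  rw [mul_sum]
  refine sum_congr rfl fun u _ => ?_
  rw [mul_sum]
  refine sum_congr rfl fun v _ => ?_
  split_ifs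
  · ring
  · ring

/-- `R` rounds -/
theorem acc (G : SimpleGraph V) [DecidableRel G.Adj] (r : ℕ)
    (hr : (G.adjMatrix ℝ).rank ≤ r) (W : Finset V)
    (hst : ∀ S ⊆ W, (∀ u ∈ S, ∀ v ∈ S, ¬ G.Adj u v) → 4 * S.card ≤ W.card) :
    ∀ R : ℕ, 2 * R * r ≤ W.card + 2 * r → ∃ (J : Type) (_ : Fintype J) (y : J → V → ℝ),
      (∀ v, ∑ j, y j v ^ 2 ≤ 1) ∧ (∑ j, ∑ v, y j v ^ 2 ≤ (R : ℝ) * r / 2) ∧
      (∀ j, ∀ v, v ∉ W → y j v = 0) ∧ ∑ j, en G (y j) ≤ -((R : ℝ) * W.card / 16) := by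
  classical
  intro R
  induction R with
  | zero =>
    intro _
    refine ⟨Fin 0, inferInstance, fun j => j.elim0, fun v => by simp, by simp, fun j => j.elim0,
      by simp⟩
  | succ R ih =>
    intro hR
    have hR' : 2 * R * r ≤ W.card := by
      have : 2 * (R + 1) * r = 2 * R * r + 2 * r := by ring
      omega
    obtain ⟨J, hJ, y, h1, h2, h3, h4⟩ := ih (by omega)
    set B := W.filter (fun v => ∑ j, y j v ^ 2 ≤ 1 / 2) with hB
    have hBc : W.card ≤ 2 * B.card := by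
      have e1 : (W.filter (fun v => ¬ ∑ j, y j v ^ 2 ≤ 1 / 2)).card + B.card = W.card := by
        rw [add_comm]
        exact card_filter_add_card_filter_not _
      have e2 : ((W.filter (fun v => ¬ ∑ j, y j v ^ 2 ≤ 1 / 2)).card : ℝ) * (1 / 2) ≤
          R * r / 2 := by
        refine le_trans ?_ h2
        rw [sum_comm]
        calc ((W.filter (fun v => ¬ ∑ j, y j v ^ 2 ≤ 1 / 2)).card : ℝ) * (1 / 2)
            = ∑ v ∈ W.filter (fun v => ¬ ∑ j, y j v ^ 2 ≤ 1 / 2), (1 / 2 : ℝ) := by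
              rw [sum_const, nsmul_eq_mul]
          _ ≤ ∑ v ∈ W.filter (fun v => ¬ ∑ j, y j v ^ 2 ≤ 1 / 2), ∑ j, y j v ^ 2 :=
              sum_le_sum fun v hv => (not_le.1 (mem_filter.1 hv).2).le
          _ ≤ ∑ v, ∑ j, y j v ^ 2 :=
              sum_le_univ_sum_of_nonneg fun v => sum_nonneg fun j _ => sq_nonneg _
      have e3 : (W.filter (fun v => ¬ ∑ j, y j v ^ 2 ≤ 1 / 2)).card ≤ R * r := by
        have : ((W.filter (fun v => ¬ ∑ j, y j v ^ 2 ≤ 1 / 2)).card : ℝ) ≤ R * r := by linarith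
        exact_mod_cast this
      have e4 : 2 * R * r = 2 * (R * r) := by ring
      omega
    obtain ⟨ι, hι, f, g, hf, hg, hfg, hadj, hfB, hgB, S, hSB, hS, hcS⟩ := matching G _ B rfl
    obtain ⟨z, z1, z2, z3, z4⟩ := spec G r hr B f g hf hg hfg hadj hfB hgB
    have hS4 := hst S (hSB.trans (filter_subset _ _)) hS
    have hm : W.card ≤ 8 * Fintype.card ι := by omega
    set c : ℝ := √(1 / 2) with hc
    have hc2 : c ^ 2 = 1 / 2 := Real.sq_sqrt (by norm_num)
    refine ⟨J ⊕ V, inferInstance, Sum.elim y (fun i v => c * z i v), ?_, ?_, ?_, ?_⟩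
    · intro v
      rw [Fintype.sum_sum_type]
      simp only [Sum.elim_inl, Sum.elim_inr, mul_pow, hc2, ← mul_sum]
      by_cases hv : v ∈ B
      · have e1 := (mem_filter.1 hv).2
        have e2 := z1 v
        linarith
      · have e1 : ∑ i, z i v ^ 2 = 0 := sum_eq_zero fun i _ => by
          rw [z3 i v hv, zero_pow two_ne_zero]
        rw [e1]
        have e2 := h1 v
        linarith
    · rw [Fintype.sum_sum_type]
      simp only [Sum.elim_inl, Sum.elim_inr, mul_pow, hc2, ← mul_sum]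
      push_cast
      linarith
    · rintro (j | i) v hv
      · exact h3 j v hv
      · simp only [Sum.elim_inr]
        rw [z3 i v (fun h => hv (mem_filter.1 h).1), mul_zero]
    · rw [Fintype.sum_sum_type]
      simp only [Sum.elim_inl, Sum.elim_inr, en_smul, hc2, ← mul_sum]
      have e1 : (W.card : ℝ) ≤ 8 * Fintype.card ι := by exact_mod_cast hm
      push_cast
      linarith

/-- **the vectors** -/
theorem vectors (G : SimpleGraph V) [DecidableRel G.Adj] (r : ℕ) (hr1 : 1 ≤ r)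
    (hr : (G.adjMatrix ℝ).rank ≤ r) (W : Finset V)
    (hst : ∀ S ⊆ W, (∀ u ∈ S, ∀ v ∈ S, ¬ G.Adj u v) → 4 * S.card ≤ W.card) :
    ∃ (J : Type) (_ : Fintype J) (y : J → V → ℝ),
      (∀ v, ∑ j, y j v ^ 2 ≤ 1) ∧ (∀ j, ∀ v, v ∉ W → y j v = 0) ∧
      ∑ j, en G (y j) ≤ -((W.card : ℝ) ^ 2 / (32 * r)) := by
  have hr' : (0 : ℝ) < r := by exact_mod_cast hr1
  obtain ⟨J, hJ, y, h1, -, h3, h4⟩ := acc G r hr W hst (W.card / (2 * r) + 1) (by
    have := Nat.div_mul_le_self W.card (2 * r)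
    have e : 2 * (W.card / (2 * r) + 1) * r = W.card / (2 * r) * (2 * r) + 2 * r := by ring
    omega)
  refine ⟨J, hJ, y, h1, h3, h4.trans ?_⟩
  have h5 : (W.card : ℝ) / (2 * r) ≤ ((W.card / (2 * r) + 1 : ℕ) : ℝ) := by
    rw [div_le_iff₀ (by positivity)]
    have h6 := Nat.lt_div_mul_add (a := W.card) (b := 2 * r) (by omega)
    have h7 : W.card ≤ (W.card / (2 * r) + 1) * (2 * r) := by
      have : (W.card / (2 * r) + 1) * (2 * r) = W.card / (2 * r) * (2 * r) + 2 * r := by ring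
      omega
    exact_mod_cast h7
  have h6 : (W.card : ℝ) ^ 2 / (32 * r) = (W.card / (2 * r)) * W.card / 16 := by
    field_simp
    ring
  rw [h6]
  have h7 : (0 : ℝ) ≤ W.card := by positivity
  have h8 := mul_le_mul_of_nonneg_right h5 h7
  linarith

end Pool.Agent.J4H91.SD
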