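import Pool.Agent.J4H91.SD.Step
import Pool.Agent.J4H62.VC.Trans

/-!
# Stable sets in sparse graphs of small rank
-/

set_option autoImplicit false

namespace Pool.Agent.J4H91.SD

open Finset Matrix
open Pool.Agent.J4H62.VC (VTrans avg_vertex card_aut_pos stable_of_sparse logb_chromatic_le)
open Pool.TH815.LS (Indep colOn_of_large exists_rep)

variable {V : Type} [Fintype V] [DecidableEq V]

/-- `k` steps -/
theorem iter (G : SimpleGraph V) [DecidableRel G.Adj] (r : ℕ) (hr1 : 1 ≤ r)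
    (hr : (G.adjMatrix ℝ).rank ≤ r) (Λ T : ℝ) (hT : 0 < T) (hT2 : 2 ≤ T ^ 2)
    (hΛ : 1 ≤ Λ) (hτ : 2 * T ^ 2 * Real.exp (-(T ^ 2) / 2) ≤ (1 / (128 * Λ)) ^ 2) :
    ∀ (k : ℕ) (W : Finset V) (p : ℝ), ((prs G W).card : ℝ) ≤ p * (W.card : ℝ) ^ 2 → r * p ≤ Λ →
      p ≤ 1 / (8 * r) + k * (1 / (128 * r * T ^ 2)) →
      ∃ S ⊆ W, (∀ u ∈ S, ∀ v ∈ S, ¬ G.Adj u v) ∧
        (W.card : ℝ) ^ 2 ≤ 16 * (512 * Λ * T ^ 2) ^ k * (S.card : ℝ) ^ 2 := by
  classical
  have hr' : (0 : ℝ) < r := by exact_mod_cast hr1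
  have hA : 1 ≤ 512 * Λ * T ^ 2 := by nlinarith
  have hσ : 0 < 1 / (128 * r * T ^ 2) := by positivity
  intro k
  induction k with
  | zero =>
    intro W p hp _ hp2
    obtain ⟨S, hSW, hS, hc⟩ := stable_of_sparse G r hr1 hr W (by
      have h1 : 8 * (r : ℝ) * ((prs G W).card : ℝ) ≤ (W.card : ℝ) ^ 2 := by
        rw [Nat.cast_zero, zero_mul, add_zero] at hp2
        have h2 := hp.trans (mul_le_mul_of_nonneg_right hp2
          (show (0 : ℝ) ≤ (W.card : ℝ) ^ 2 by positivity))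
        have h3 := mul_le_mul_of_nonneg_left h2 (show (0 : ℝ) ≤ 8 * r by positivity)
        have h4 : 8 * (r : ℝ) * (1 / (8 * r) * (W.card : ℝ) ^ 2) = (W.card : ℝ) ^ 2 := by
          field_simp
        linarith
      exact_mod_cast h1)
    refine ⟨S, hSW, hS, ?_⟩
    rw [pow_zero, mul_one]
    have h1 : (W.card : ℝ) ≤ 4 * S.card := by exact_mod_cast hc
    have h2 := pow_le_pow_left₀ (Nat.cast_nonneg _) h1 2
    nlinarith
  | succ k ih =>
    intro W p hp hp1 hp2
    by_cases hst : ∀ S ⊆ W, (∀ u ∈ S, ∀ v ∈ S, ¬ G.Adj u v) → 4 * S.card ≤ W.card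
    · rcases Nat.eq_zero_or_pos W.card with h0 | h0
      · refine ⟨∅, empty_subset _, by simp, ?_⟩
        rw [h0]
        simp
      · by_cases hp3 : p ≤ 1 / (8 * r) + k * (1 / (128 * r * T ^ 2))
        · obtain ⟨S, hSW, hS, hc⟩ := ih W p hp hp1 hp3
          refine ⟨S, hSW, hS, hc.trans ?_⟩
          refine mul_le_mul_of_nonneg_right ?_ (by positivity)
          refine mul_le_mul_of_nonneg_left ?_ (by norm_num)
          exact pow_le_pow_right₀ hA (Nat.le_succ k)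
        · push Not at hp3
          have h1 : 1 / (128 * r * T ^ 2) ≤ p := by
            have h2 : 1 / (128 * r * T ^ 2) ≤ 1 / (8 * r) := by
              apply one_div_le_one_div_of_le (by positivity)
              nlinarith
            have h3 : 0 ≤ (k : ℝ) * (1 / (128 * r * T ^ 2)) := by positivity
            linarith
          obtain ⟨W', hW', h2, h3⟩ := step G r hr1 hr W hst h0 Λ T hT hT2 hΛ hτ p hp hp1 h1
          obtain ⟨S, hSW, hS, hc⟩ := ih W' (p - 1 / (128 * r * T ^ 2)) h2 (by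
            have : 0 ≤ (r : ℝ) * (1 / (128 * r * T ^ 2)) := by positivity
            linarith) (by
            push_cast at hp2
            linarith)
          refine ⟨S, hSW.trans hW', hS, h3.trans ?_⟩
          calc 512 * Λ * T ^ 2 * (W'.card : ℝ) ^ 2
              ≤ 512 * Λ * T ^ 2 * (16 * (512 * Λ * T ^ 2) ^ k * (S.card : ℝ) ^ 2) :=
                mul_le_mul_of_nonneg_left hc (by positivity)
            _ = _ := by ring
    · push Not at hst
      obtain ⟨S, hSW, hS, hc⟩ := hst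
      refine ⟨S, hSW, hS, ?_⟩
      have h1 : (W.card : ℝ) ≤ 4 * S.card := by exact_mod_cast hc.le
      have h2 := pow_le_pow_left₀ (Nat.cast_nonneg _) h1 2
      have h3 : (1 : ℝ) ≤ (512 * Λ * T ^ 2) ^ (k + 1) := one_le_pow₀ hA
      have h4 : 0 ≤ (S.card : ℝ) ^ 2 := by positivity
      nlinarith

/-- the value of `T` -/
lemma tau_ok (Λ : ℝ) (hΛ : 1 ≤ Λ) :
    2 * (8 * Real.log (64 * Λ)) * Real.exp (-(8 * Real.log (64 * Λ)) / 2) ≤
      (1 / (128 * Λ)) ^ 2 := by
  have h0 : 0 < 64 * Λ := by linarith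
  have h1 : Real.exp (-(8 * Real.log (64 * Λ)) / 2) = 1 / (64 * Λ) ^ 4 := by
    have e1 : -(8 * Real.log (64 * Λ)) / 2 = -((4 : ℕ) * Real.log (64 * Λ)) := by
      push_cast
      ring
    rw [e1, Real.exp_neg, Real.exp_nat_mul, Real.exp_log h0, one_div]
  rw [h1]
  have h2 : Real.log (64 * Λ) ≤ 64 * Λ := (Real.log_le_sub_one_of_pos h0).trans (by linarith)
  rw [mul_one_div, div_pow, one_pow, div_le_div_iff₀ (by positivity) (by positivity)]
  have h3 : 2 * (8 * Real.log (64 * Λ)) * (128 * Λ) ^ 2 ≤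
      2 * (8 * (64 * Λ)) * (128 * Λ) ^ 2 :=
    mul_le_mul_of_nonneg_right (by linarith) (by positivity)
  refine h3.trans ?_
  have h4 : 2 * (8 * (64 * Λ)) * (128 * Λ) ^ 2 = 16777216 * Λ ^ 3 := by ring
  have h5 : 1 * (64 * Λ) ^ 4 = 16777216 * Λ ^ 4 := by ring
  rw [h4, h5]
  refine mul_le_mul_of_nonneg_left ?_ (by norm_num)
  exact pow_le_pow_right₀ hΛ (by norm_num)

/-- the final exponent -/
lemma exponent (Λ : ℝ) (hΛ : 1 ≤ Λ) (k : ℕ) (hk : (k : ℝ) ≤ 1024 * Λ * Real.log (64 * Λ) + 1) :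
    16 * (4096 * Λ * Real.log (64 * Λ)) ^ k ≤
      ((2 : ℝ) ^ (2 ^ 15 * Λ * (1 + Real.log Λ) ^ 2)) ^ 2 := by
  set l := 1 + Real.log Λ with hl
  have hΛ0 : 0 < Λ := by linarith
  have hlog0 : 0 ≤ Real.log Λ := Real.log_nonneg hΛ
  have hl1 : 1 ≤ l := by linarith
  have hl2 := Real.log_two_lt_d9
  have hl3 := Real.log_two_gt_d9
  have h1 : Real.log (64 * Λ) = 6 * Real.log 2 + Real.log Λ := by
    rw [Real.log_mul (by norm_num) hΛ0.ne', show (64 : ℝ) = 2 ^ 6 by norm_num, Real.log_pow]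
    push_cast
    ring
  have h2 : Real.log (64 * Λ) ≤ 4.16 * l := by
    rw [h1]
    linarith
  have h2' : 1 ≤ Real.log (64 * Λ) := by
    rw [h1]
    linarith
  have hΛl : 1 ≤ Λ * l := by nlinarith
  have h3 : (k : ℝ) ≤ 4261 * (Λ * l) := by
    have e1 : 1024 * Λ * Real.log (64 * Λ) ≤ 1024 * Λ * (4.16 * l) :=
      mul_le_mul_of_nonneg_left h2 (by positivity)
    nlinarith
  have h4 : 4096 * Λ * Real.log (64 * Λ) ≤ 2 ^ 15 * (Λ * l) := by
    have e1 : 4096 * Λ * Real.log (64 * Λ) ≤ 4096 * Λ * (4.16 * l) :=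
      mul_le_mul_of_nonneg_left h2 (by positivity)
    nlinarith
  have hA0 : 0 < 4096 * Λ * Real.log (64 * Λ) := by positivity
  have h5 : Real.logb 2 (4096 * Λ * Real.log (64 * Λ)) ≤ 15 * l := by
    have e1 : Real.logb 2 (4096 * Λ * Real.log (64 * Λ)) ≤ Real.logb 2 (2 ^ 15 * (Λ * l)) :=
      Real.logb_le_logb_of_le (by norm_num) hA0 h4
    refine e1.trans ?_
    rw [Real.logb_mul (by norm_num) (by positivity), Real.logb_mul hΛ0.ne' (by positivity),
      Real.logb_pow, Real.logb_self_eq_one (by norm_num)]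
    have e2 : Real.log l ≤ Real.log Λ := by
      have := Real.log_le_sub_one_of_pos (show 0 < l by linarith)
      linarith
    have e3 : Real.logb 2 Λ ≤ 1.5 * Real.log Λ := by
      rw [Real.logb, div_le_iff₀ (by linarith)]
      nlinarith
    have e4 : Real.logb 2 l ≤ 1.5 * Real.log Λ := by
      rw [Real.logb, div_le_iff₀ (by linarith)]
      nlinarith
    push_cast
    linarith
  have hlogA0 : 0 ≤ Real.logb 2 (4096 * Λ * Real.log (64 * Λ)) :=
    Real.logb_nonneg (by norm_num) (by nlinarith)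
  have h6 : Real.logb 2 (16 * (4096 * Λ * Real.log (64 * Λ)) ^ k) ≤
      2 ^ 16 * Λ * l ^ 2 := by
    rw [Real.logb_mul (by norm_num) (by positivity), Real.logb_pow,
      show (16 : ℝ) = 2 ^ 4 by norm_num, Real.logb_pow, Real.logb_self_eq_one (by norm_num)]
    have e1 : (k : ℝ) * Real.logb 2 (4096 * Λ * Real.log (64 * Λ)) ≤
        4261 * (Λ * l) * (15 * l) := mul_le_mul h3 h5 hlogA0 (by positivity)
    have e2 : 4261 * (Λ * l) * (15 * l) = 63915 * (Λ * l ^ 2) := by ring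
    have e3 : 1 ≤ Λ * l ^ 2 := by nlinarith
    push_cast
    nlinarith
  have hpos : 0 < 16 * (4096 * Λ * Real.log (64 * Λ)) ^ k := by positivity
  rw [Real.logb_le_iff_le_rpow (by norm_num) hpos] at h6
  refine h6.trans (le_of_eq ?_)
  rw [show (2 : ℝ) ^ 16 * Λ * l ^ 2 = (2 ^ 15 * Λ * l ^ 2) * (2 : ℕ) by push_cast; ring,
    Real.rpow_mul (by norm_num), Real.rpow_natCast]

/-- **stable sets in sparse graphs of small rank** -/
theorem stable (G : SimpleGraph V) [DecidableRel G.Adj] (r : ℕ) (hr1 : 1 ≤ r)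
    (hr : (G.adjMatrix ℝ).rank ≤ r) (L : ℝ) (hL : 1 ≤ L) (W : Finset V)
    (hW : (r : ℝ) * ((W ×ˢ W).filter (fun p => G.Adj p.1 p.2)).card ≤ L * (W.card : ℝ) ^ 2) :
    ∃ S ⊆ W, (∀ u ∈ S, ∀ v ∈ S, ¬ G.Adj u v) ∧
      (W.card : ℝ) ≤ (2 : ℝ) ^ (2 ^ 15 * L * (1 + Real.log L) ^ 2) * S.card := by
  have hr' : (0 : ℝ) < r := by exact_mod_cast hr1
  have h2' : 1 ≤ Real.log (64 * L) := by
    rw [Real.log_mul (by norm_num) (by linarith), show (64 : ℝ) = 2 ^ 6 by norm_num, Real.log_pow]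
    have h1 := Real.log_two_gt_d9
    have h2 := Real.log_nonneg hL
    push_cast
    linarith
  set T := √(8 * Real.log (64 * L)) with hT
  have hT2 : T ^ 2 = 8 * Real.log (64 * L) := Real.sq_sqrt (by linarith)
  have hT0 : 0 < T := Real.sqrt_pos.2 (by linarith)
  set k := ⌈128 * L * T ^ 2⌉₊ with hk
  obtain ⟨S, hSW, hS, hc⟩ := iter G r hr1 hr L T hT0 (by rw [hT2]; linarith) hL (by
    rw [hT2]
    exact tau_ok L hL) k W (L / r) (by
      show (((W ×ˢ W).filter (fun p => G.Adj p.1 p.2)).card : ℝ) ≤ _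
      rw [div_mul_eq_mul_div, le_div_iff₀ hr', mul_comm]
      exact hW) (by rw [mul_div_cancel₀ _ hr'.ne']) (by
      have h1 : 128 * L * T ^ 2 ≤ k := Nat.le_ceil _
      have h2 : 128 * L * T ^ 2 * (1 / (128 * r * T ^ 2)) ≤ k * (1 / (128 * r * T ^ 2)) :=
        mul_le_mul_of_nonneg_right h1 (by positivity)
      have h3 : 128 * L * T ^ 2 * (1 / (128 * r * T ^ 2)) = L / r := by
        field_simp
      have h4 : 0 ≤ 1 / (8 * (r : ℝ)) := by positivity
      linarith)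
  refine ⟨S, hSW, hS, ?_⟩
  have h1 : (k : ℝ) ≤ 1024 * L * Real.log (64 * L) + 1 := by
    have := (Nat.ceil_lt_add_one (show 0 ≤ 128 * L * T ^ 2 by positivity)).le
    refine this.trans (le_of_eq ?_)
    rw [hT2]
    ring
  have h2 := exponent L hL k h1
  have h3 : 512 * L * T ^ 2 = 4096 * L * Real.log (64 * L) := by
    rw [hT2]
    ring
  rw [h3] at hc
  have h4 : (W.card : ℝ) ^ 2 ≤
      ((2 : ℝ) ^ (2 ^ 15 * L * (1 + Real.log L) ^ 2) * S.card) ^ 2 := by
    rw [mul_pow]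
    exact hc.trans (mul_le_mul_of_nonneg_right h2 (by positivity))
  exact (pow_le_pow_iff_left₀ (by positivity) (by positivity) two_ne_zero).1 h4

/-- translates of a stable set -/
lemma translate (G : SimpleGraph V) [DecidableRel G.Adj] (hG : VTrans G) (S : Finset V)
    (hS : ∀ u ∈ S, ∀ v ∈ S, ¬ G.Adj u v) (Y : Finset V) :
    ∃ I ⊆ Y, (∀ u ∈ I, ∀ v ∈ I, ¬ G.Adj u v) ∧
      (Y.card : ℝ) * S.card ≤ Fintype.card V * I.card := by
  classical
  by_contra hcon
  push Not at hcon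
  have h1 : ∀ g : G ≃g G, (Fintype.card V : ℝ) * ((Y.filter (fun v => g v ∈ S)).card : ℝ) <
      (Y.card : ℝ) * S.card := by
    intro g
    refine hcon _ (filter_subset _ _) ?_
    intro u hu v hv huv
    exact hS _ (mem_filter.1 hu).2 _ (mem_filter.1 hv).2 (g.map_rel_iff'.2 huv)
  have h2 : ∑ g : G ≃g G, (Fintype.card V : ℝ) * ((Y.filter (fun v => g v ∈ S)).card : ℝ) <
      ∑ _g : G ≃g G, (Y.card : ℝ) * S.card :=
    sum_lt_sum_of_nonempty ⟨1, mem_univ _⟩ fun g _ => h1 g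
  have h3 : ∑ g : G ≃g G, (Fintype.card V : ℝ) * ((Y.filter (fun v => g v ∈ S)).card : ℝ) =
      ∑ v ∈ Y, (Fintype.card V : ℝ) * ∑ g : G ≃g G, (if g v ∈ S then (1 : ℝ) else 0) := by
    have e1 : ∀ g : G ≃g G, (Fintype.card V : ℝ) * ((Y.filter (fun v => g v ∈ S)).card : ℝ) =
        ∑ v ∈ Y, (Fintype.card V : ℝ) * (if g v ∈ S then (1 : ℝ) else 0) := by
      intro g
      rw [← mul_sum, sum_boole]
    rw [sum_congr rfl fun g _ => e1 g, sum_comm]
    exact sum_congr rfl fun v _ => (mul_sum _ _ _).symm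
  have h4 : ∀ v, (Fintype.card V : ℝ) * ∑ g : G ≃g G, (if g v ∈ S then (1 : ℝ) else 0) =
      Fintype.card (G ≃g G) * S.card := by
    intro v
    rw [avg_vertex hG (fun w => if w ∈ S then (1 : ℝ) else 0) v, sum_boole]
    congr 2
    simp
  rw [h3, sum_congr rfl fun v _ => h4 v, sum_const, sum_const, nsmul_eq_mul, nsmul_eq_mul,
    card_univ] at h2
  have h5 : (Y.card : ℝ) * ((Fintype.card (G ≃g G) : ℝ) * S.card) =
      (Fintype.card (G ≃g G) : ℝ) * ((Y.card : ℝ) * S.card) := by ring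
  rw [h5] at h2
  exact lt_irrefl _ h2

/-- **vertex-transitive graphs** -/
theorem chromatic (G : SimpleGraph V) [DecidableRel G.Adj] (r : ℕ) (hr1 : 1 ≤ r)
    (hr : (G.adjMatrix ℝ).rank ≤ r) (L : ℝ) (hL : 1 ≤ L) (hG : VTrans G)
    (hd : ∀ v, (r : ℝ) * G.degree v ≤ L * Fintype.card V) :
    Real.logb 2 (G.chromaticNumber.toNat : ℝ) ≤
      2 ^ 16 * L * (1 + Real.log L) ^ 2 + Real.logb 2 r := by
  classical
  obtain ⟨rep, hrc, hrep⟩ := exists_rep G r hr
  set X : ℝ := 2 ^ 15 * L * (1 + Real.log L) ^ 2 with hX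
  have hlog0 := Real.log_nonneg hL
  have hX0 : 2 ^ 15 ≤ X := by
    have : 1 ≤ L * (1 + Real.log L) ^ 2 := by nlinarith
    rw [hX]
    nlinarith
  set K := ⌈(2 : ℝ) ^ X⌉₊ with hK
  have h2X : (0 : ℝ) < 2 ^ X := by positivity
  have hK1 : 1 ≤ K := Nat.ceil_pos.2 h2X
  have hr' : (1 : ℝ) ≤ r := by exact_mod_cast hr1
  obtain ⟨S, -, hS, hc⟩ := stable G r hr1 hr L hL univ (by
    have h1 : (((univ : Finset V) ×ˢ (univ : Finset V)).filter
        (fun p => G.Adj p.1 p.2)).card = ∑ v : V, G.degree v := by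
      rw [card_filter, sum_product]
      refine sum_congr rfl fun v _ => ?_
      rw [← SimpleGraph.card_neighborFinset_eq_degree, SimpleGraph.neighborFinset_eq_filter,
        card_filter]
    rw [h1]
    push_cast
    rw [mul_sum]
    calc ∑ v : V, (r : ℝ) * (G.degree v : ℝ) ≤ ∑ _v : V, L * (Fintype.card V : ℝ) :=
          sum_le_sum fun v _ => hd v
      _ = L * ((univ : Finset V).card : ℝ) ^ 2 := by
          rw [sum_const, nsmul_eq_mul, card_univ]
          ring)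
  rw [card_univ] at hc
  have hlarge : ∀ W : Finset V, ∃ I ⊆ W, Indep G I ∧ W.card ≤ K * I.card := by
    intro W
    obtain ⟨I, hIW, hI, hIc⟩ := translate G hG S hS W
    refine ⟨I, hIW, hI, ?_⟩
    rcases Nat.eq_zero_or_pos W.card with h0 | h0
    · omega
    · have hS0 : (0 : ℝ) < S.card := by
        obtain ⟨v, hv⟩ := card_pos.1 h0
        have : Nonempty V := ⟨v⟩
        have h1 : (0 : ℝ) < Fintype.card V := by exact_mod_cast Fintype.card_pos
        by_contra hcon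
        have h2 : (S.card : ℝ) = 0 := le_antisymm (not_lt.1 hcon) (Nat.cast_nonneg _)
        rw [h2, mul_zero] at hc
        linarith
      have h1 : (W.card : ℝ) * S.card ≤ (2 ^ X * I.card) * S.card := by
        refine hIc.trans ?_
        have h2 := mul_le_mul_of_nonneg_right hc (Nat.cast_nonneg (α := ℝ) I.card)
        refine h2.trans (le_of_eq ?_)
        ring
      have h2 : (W.card : ℝ) ≤ 2 ^ X * I.card := le_of_mul_le_mul_right h1 hS0
      have h3 : (W.card : ℝ) ≤ K * I.card :=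
        h2.trans (mul_le_mul_of_nonneg_right (Nat.le_ceil _) (Nat.cast_nonneg _))
      exact_mod_cast h3
  obtain ⟨f, hf1, hf2⟩ := colOn_of_large G K hK1 hlarge (r + 1) (univ.image rep) (by
    refine lt_of_le_of_lt hrc ?_
    exact Nat.pow_lt_pow_right (by norm_num) (by omega))
  have hcol : G.Colorable (K * (r + 1)) := by
    refine ⟨SimpleGraph.Coloring.mk (fun v => (⟨f (rep v), ?_⟩ : Fin (K * (r + 1)))) ?_⟩
    · exact hf1 (rep v) (mem_image_of_mem _ (mem_univ _))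
    · intro u v huv heq
      rw [Fin.mk.injEq] at heq
      exact hf2 (rep u) (mem_image_of_mem _ (mem_univ _)) (rep v)
        (mem_image_of_mem _ (mem_univ _)) (hrep u v huv) heq
  have hlr : 0 ≤ Real.logb 2 (r : ℝ) := Real.logb_nonneg (by norm_num) hr'
  refine logb_chromatic_le G hcol ?_ (by positivity)
  have h1 : ((K * (r + 1) : ℕ) : ℝ) ≤ 2 ^ X * r * 2 ^ 2 := by
    push_cast
    have h2 : (K : ℝ) ≤ 2 * 2 ^ X := by
      have h3 := (Nat.ceil_lt_add_one h2X.le).le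
      have h4 : (1 : ℝ) ≤ 2 ^ X := Real.one_le_rpow (by norm_num) (by linarith)
      linarith
    calc (K : ℝ) * (r + 1) ≤ (2 * 2 ^ X) * (2 * r) :=
          mul_le_mul h2 (by linarith) (by positivity) (by positivity)
      _ = 2 ^ X * r * 2 ^ 2 := by ring
  have h0 : (0 : ℝ) < ((K * (r + 1) : ℕ) : ℝ) := by
    have : 0 < K := hK1
    positivity
  refine (Real.logb_le_logb_of_le (by norm_num) h0 h1).trans ?_
  rw [Real.logb_mul (by positivity) (by norm_num), Real.logb_mul (by positivity) (by positivity),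
    Real.logb_rpow (by norm_num) (by norm_num), Real.logb_pow,
    Real.logb_self_eq_one (by norm_num)]
  have h2 : 2 ^ 16 * L * (1 + Real.log L) ^ 2 = 2 * X := by
    rw [hX]
    ring
  rw [h2]
  push_cast
  linarith

end Pool.Agent.J4H91.SD
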