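import Mathlib.Analysis.SpecialFunctions.Exp
import Mathlib.Algebra.BigOperators.Field
import Mathlib.Analysis.SpecialFunctions.Trigonometric.DerivHyp
import Mathlib.Analysis.SpecialFunctions.Trigonometric.Series

/-!
# Sums with random signs and clipping
-/

set_option autoImplicit false

namespace Pool.Agent.J4H91.SD

open Finset

/-- the sign of a bit -/
def sgn (b : Bool) : ℝ := if b then 1 else -1

lemma sgn_not (b : Bool) : sgn (!b) = -sgn b := by
  cases b <;> simp [sgn]

lemma sgn_mul_self (b : Bool) : sgn b * sgn b = 1 := by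
  cases b <;> simp [sgn]

variable {J : Type} [Fintype J] [DecidableEq J]

lemma sum_sgn_mul (j k : J) :
    ∑ ω : J → Bool, sgn (ω j) * sgn (ω k) =
      if j = k then (Fintype.card (J → Bool) : ℝ) else 0 := by
  by_cases h : j = k
  · subst h
    rw [if_pos rfl]
    simp only [sgn_mul_self, sum_const, nsmul_eq_mul, mul_one, card_univ]
  · rw [if_neg h]
    set F : (J → Bool) → (J → Bool) := fun ω => Function.update ω j (!ω j) with hF
    have hinv : Function.Involutive F := by
      intro ω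
      funext i
      by_cases hi : i = j
      · subst hi
        simp [hF]
      · simp [hF, hi]
    have h1 := Equiv.sum_comp (hinv.toPerm F) (fun ω : J → Bool => sgn (ω j) * sgn (ω k))
    have h2 : ∀ ω : J → Bool, sgn ((hinv.toPerm F) ω j) * sgn ((hinv.toPerm F) ω k) =
        -(sgn (ω j) * sgn (ω k)) := by
      intro ω
      have e1 : (hinv.toPerm F) ω = F ω := rfl
      rw [e1]
      simp only [hF, Function.update_self, Function.update_of_ne (Ne.symm h), sgn_not]
      ring
    rw [sum_congr rfl fun ω _ => h2 ω, sum_neg_distrib] at h1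
    linarith

/-- the random sum -/
noncomputable def rs (y : J → ℝ) (ω : J → Bool) : ℝ := ∑ j, sgn (ω j) * y j

lemma sum_rs_mul (y z : J → ℝ) :
    ∑ ω : J → Bool, rs y ω * rs z ω = (Fintype.card (J → Bool) : ℝ) * ∑ j, y j * z j := by
  have h1 : ∀ ω : J → Bool, rs y ω * rs z ω =
      ∑ j, ∑ k, (y j * z k) * (sgn (ω j) * sgn (ω k)) := by
    intro ω
    unfold rs
    rw [sum_mul_sum]
    refine sum_congr rfl fun j _ => sum_congr rfl fun k _ => ?_
    ring
  rw [sum_congr rfl fun ω _ => h1 ω, sum_comm, mul_sum]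
  refine sum_congr rfl fun j _ => ?_
  rw [sum_comm]
  have h2 : ∀ k, ∑ ω : J → Bool, (y j * z k) * (sgn (ω j) * sgn (ω k)) =
      if j = k then (Fintype.card (J → Bool) : ℝ) * (y j * z k) else 0 := by
    intro k
    rw [← mul_sum, sum_sgn_mul]
    split_ifs
    · ring
    · ring
  rw [sum_congr rfl fun k _ => h2 k, sum_ite_eq, if_pos (mem_univ _)]

omit [DecidableEq J] in
lemma rs_flip (y : J → ℝ) (ω : J → Bool) : rs y (fun j => !ω j) = -rs y ω := by
  unfold rs
  rw [← sum_neg_distrib]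
  refine sum_congr rfl fun j _ => ?_
  rw [sgn_not]
  ring

lemma sum_odd (y : J → ℝ) (φ : ℝ → ℝ) (hφ : ∀ x, φ (-x) = -φ x) :
    ∑ ω : J → Bool, φ (rs y ω) = 0 := by
  have hinv : Function.Involutive (fun (ω : J → Bool) (j : J) => !ω j) := by
    intro ω
    funext j
    simp
  have h1 := Equiv.sum_comp (hinv.toPerm _) (fun ω : J → Bool => φ (rs y ω))
  have h2 : ∀ ω : J → Bool, φ (rs y ((hinv.toPerm _) ω)) = -φ (rs y ω) := by
    intro ω
    have e1 : (hinv.toPerm _) ω = fun j => !ω j := rfl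
    rw [e1, rs_flip, hφ]
  rw [sum_congr rfl fun ω _ => h2 ω, sum_neg_distrib] at h1
  linarith

lemma sum_exp (y : J → ℝ) (T : ℝ) (hy : ∑ j, y j ^ 2 ≤ 1) :
    ∑ ω : J → Bool, Real.exp (T * rs y ω) ≤
      (Fintype.card (J → Bool) : ℝ) * Real.exp (T ^ 2 / 2) := by
  have h1 : ∀ ω : J → Bool, Real.exp (T * rs y ω) = ∏ j, Real.exp (T * (sgn (ω j) * y j)) := by
    intro ω
    rw [← Real.exp_sum]
    unfold rs
    rw [mul_sum]
  rw [sum_congr rfl fun ω _ => h1 ω]
  have h2 : ∑ ω : J → Bool, ∏ j, Real.exp (T * (sgn (ω j) * y j)) =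
      ∏ j, ∑ b : Bool, Real.exp (T * (sgn b * y j)) := by
    have := Finset.prod_univ_sum (fun _ : J => (univ : Finset Bool))
      (fun j b => Real.exp (T * (sgn b * y j)))
    rw [Fintype.piFinset_univ] at this
    exact this.symm
  rw [h2]
  have h3 : ∀ j, ∑ b : Bool, Real.exp (T * (sgn b * y j)) ≤
      2 * Real.exp ((T * y j) ^ 2 / 2) := by
    intro j
    have e1 : ∑ b : Bool, Real.exp (T * (sgn b * y j)) = 2 * Real.cosh (T * y j) := by
      rw [Fintype.sum_bool, Real.cosh_eq]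
      simp only [sgn, if_true, one_mul]
      norm_num
      ring
    rw [e1]
    exact mul_le_mul_of_nonneg_left (Real.cosh_le_exp_half_sq _) (by norm_num)
  calc ∏ j, ∑ b : Bool, Real.exp (T * (sgn b * y j))
      ≤ ∏ j, 2 * Real.exp ((T * y j) ^ 2 / 2) :=
        prod_le_prod (fun j _ => sum_nonneg fun b _ => (Real.exp_pos _).le) fun j _ => h3 j
    _ = 2 ^ Fintype.card J * Real.exp (∑ j, (T * y j) ^ 2 / 2) := by
        rw [prod_mul_distrib, prod_const, card_univ, Real.exp_sum]
    _ ≤ 2 ^ Fintype.card J * Real.exp (T ^ 2 / 2) := by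
        refine mul_le_mul_of_nonneg_left (Real.exp_le_exp.2 ?_) (by positivity)
        have e1 : ∑ j, (T * y j) ^ 2 / 2 = T ^ 2 / 2 * ∑ j, y j ^ 2 := by
          rw [mul_sum]
          refine sum_congr rfl fun j _ => ?_
          ring
        rw [e1]
        have := mul_le_mul_of_nonneg_left hy (show 0 ≤ T ^ 2 / 2 by positivity)
        linarith
    _ = _ := by
        rw [Fintype.card_fun, Fintype.card_bool]
        push_cast
        rfl

/-- clipping at `T` -/
noncomputable def clip (T x : ℝ) : ℝ := max (-T) (min T x)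

lemma clip_neg (T x : ℝ) (hT : 0 ≤ T) : clip T (-x) = -clip T x := by
  unfold clip
  rcases le_total T x with h | h
  · rw [min_eq_right (by linarith : -x ≤ T), max_eq_left (by linarith : -x ≤ -T),
      min_eq_left h, max_eq_right (by linarith : -T ≤ T)]
  · rcases le_total x (-T) with h' | h'
    · rw [min_eq_left (by linarith : T ≤ -x), max_eq_right (by linarith : -T ≤ T),
        min_eq_right h, max_eq_left h', neg_neg]
    · rw [min_eq_right (by linarith : -x ≤ T), max_eq_right (by linarith : -T ≤ -x),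
        min_eq_right h, max_eq_right h']

lemma abs_clip_le (T x : ℝ) (hT : 0 ≤ T) : |clip T x| ≤ T := by
  unfold clip
  rw [abs_le]
  exact ⟨le_max_left _ _, max_le (by linarith) (min_le_left _ _)⟩

lemma abs_clip_le_abs (T x : ℝ) (hT : 0 ≤ T) : |clip T x| ≤ |x| := by
  unfold clip
  rcases le_total T x with h | h
  · rw [min_eq_left h, max_eq_right (by linarith : -T ≤ T), abs_of_nonneg hT]
    exact h.trans (le_abs_self x)
  · rcases le_total x (-T) with h' | h'
    · rw [min_eq_right h, max_eq_left h', abs_neg, abs_of_nonneg hT]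
      have := neg_abs_le x
      linarith
    · rw [min_eq_right h, max_eq_right h']

/-- the tail -/
noncomputable def tail (T x : ℝ) : ℝ :=
  T ^ 2 * Real.exp (-T ^ 2) * (Real.exp (T * x) + Real.exp (T * -x))

lemma tail_nonneg (T x : ℝ) : 0 ≤ tail T x := by
  unfold tail
  positivity

lemma sq_le_tail (T x : ℝ) (hT : 0 < T) (hT2 : 2 ≤ T ^ 2) (hx : T ≤ x) :
    x ^ 2 ≤ tail T x := by
  have h1 : x / T ≤ Real.exp (x / T - 1) := by
    have := Real.add_one_le_exp (x / T - 1)
    linarith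
  have h2 : x ^ 2 ≤ T ^ 2 * Real.exp (2 * (x / T - 1)) := by
    have h3 : (x / T) ^ 2 ≤ Real.exp (x / T - 1) ^ 2 :=
      pow_le_pow_left₀ (div_nonneg (hT.le.trans hx) hT.le) h1 2
    rw [← Real.exp_nat_mul] at h3
    have h4 : x ^ 2 = T ^ 2 * (x / T) ^ 2 := by
      field_simp
    rw [h4]
    refine mul_le_mul_of_nonneg_left ?_ (by positivity)
    push_cast at h3
    exact h3
  have h5 : 2 * (x / T - 1) ≤ T * x - T ^ 2 := by
    have e1 : 2 * (x / T - 1) = 2 * (x - T) / T := by
      field_simp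
    have e2 : T * x - T ^ 2 = T * (x - T) := by ring
    rw [e1, e2, div_le_iff₀ hT]
    nlinarith
  have h6 : Real.exp (2 * (x / T - 1)) ≤ Real.exp (-T ^ 2) * Real.exp (T * x) := by
    rw [← Real.exp_add]
    exact Real.exp_le_exp.2 (by linarith)
  have h7 : Real.exp (-T ^ 2) * Real.exp (T * x) ≤
      Real.exp (-T ^ 2) * (Real.exp (T * x) + Real.exp (T * -x)) :=
    mul_le_mul_of_nonneg_left (by have := Real.exp_pos (T * -x); linarith) (Real.exp_pos _).le
  calc x ^ 2 ≤ T ^ 2 * Real.exp (2 * (x / T - 1)) := h2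
    _ ≤ T ^ 2 * (Real.exp (-T ^ 2) * (Real.exp (T * x) + Real.exp (T * -x))) :=
        mul_le_mul_of_nonneg_left (h6.trans h7) (by positivity)
    _ = tail T x := by
        unfold tail
        ring

lemma tail_neg (T x : ℝ) : tail T (-x) = tail T x := by
  unfold tail
  rw [neg_neg]
  ring

lemma sq_diff_le (T x : ℝ) (hT : 0 < T) (hT2 : 2 ≤ T ^ 2) : (x - clip T x) ^ 2 ≤ tail T x := by
  rcases le_total T x with h | h
  · have h1 : clip T x = T := by
      unfold clip
      rw [min_eq_left h, max_eq_right (by linarith : -T ≤ T)]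
    rw [h1]
    refine le_trans ?_ (sq_le_tail T x hT hT2 h)
    nlinarith
  · rcases le_total x (-T) with h' | h'
    · have h1 : clip T x = -T := by
        unfold clip
        rw [min_eq_right h, max_eq_left h']
      rw [h1, ← tail_neg]
      refine le_trans ?_ (sq_le_tail T (-x) hT hT2 (by linarith))
      nlinarith
    · have h1 : clip T x = x := by
        unfold clip
        rw [min_eq_right h, max_eq_right h']
      rw [h1, sub_self, zero_pow two_ne_zero]
      exact tail_nonneg T x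

lemma amgm (s a b P : ℝ) (hs : 0 < s) (hb : b ^ 2 ≤ P) : |a * b| ≤ (s * a ^ 2 + P / s) / 2 := by
  have h1 : |a * b| ≤ (s * a ^ 2 + b ^ 2 / s) / 2 := by
    rw [abs_mul]
    have h2 : 0 ≤ s * (|a| - |b| / s) ^ 2 := by positivity
    have h3 : s * (|a| - |b| / s) ^ 2 = s * |a| ^ 2 - 2 * (|a| * |b|) + |b| ^ 2 / s := by
      field_simp
      ring
    rw [h3, sq_abs, sq_abs] at h2
    linarith
  refine h1.trans ?_
  have h4 : b ^ 2 / s ≤ P / s := div_le_div_of_nonneg_right hb hs.le
  linarith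

lemma clip_mul (T s a b : ℝ) (hT : 0 < T) (hT2 : 2 ≤ T ^ 2) (hs : 0 < s) :
    clip T a * clip T b ≤ a * b + (s * a ^ 2 + tail T b / s) / 2 +
      (s * b ^ 2 + tail T a / s) / 2 := by
  have h1 := amgm s a (b - clip T b) (tail T b) hs (sq_diff_le T b hT hT2)
  have h2 := amgm s (clip T b) (a - clip T a) (tail T a) hs (sq_diff_le T a hT hT2)
  have h3 := neg_abs_le (a * (b - clip T b))
  have h4 := neg_abs_le (clip T b * (a - clip T a))
  have h5 : clip T b ^ 2 ≤ b ^ 2 := by
    rw [← sq_abs, ← sq_abs b]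
    exact pow_le_pow_left₀ (abs_nonneg _) (abs_clip_le_abs T b hT.le) 2
  have h6 := mul_le_mul_of_nonneg_left h5 hs.le
  nlinarith

/-- the mean of a product of clipped sums -/
theorem mean_clip (y z : J → ℝ) (T : ℝ) (hT : 0 < T) (hT2 : 2 ≤ T ^ 2)
    (hy : ∑ j, y j ^ 2 ≤ 1) (hz : ∑ j, z j ^ 2 ≤ 1) {τ : ℝ} (hτ : 0 < τ)
    (hτ2 : 2 * T ^ 2 * Real.exp (-(T ^ 2) / 2) ≤ τ ^ 2) :
    ∑ ω : J → Bool, clip T (rs y ω) * clip T (rs z ω) ≤
      (Fintype.card (J → Bool) : ℝ) * (∑ j, y j * z j + 2 * τ) := by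
  set N : ℝ := (Fintype.card (J → Bool) : ℝ) with hN
  have hN0 : 0 ≤ N := by positivity
  have hsq : ∀ w : J → ℝ, ∑ j, w j ^ 2 ≤ 1 → ∑ ω : J → Bool, rs w ω ^ 2 ≤ N := by
    intro w hw
    have h1 := sum_rs_mul w w
    have h2 : ∑ ω : J → Bool, rs w ω ^ 2 = ∑ ω : J → Bool, rs w ω * rs w ω :=
      sum_congr rfl fun ω _ => sq _
    have h3 : ∑ j, w j * w j = ∑ j, w j ^ 2 := sum_congr rfl fun j _ => (sq _).symm
    rw [h2, h1, h3]
    have := mul_le_mul_of_nonneg_left hw hN0
    linarith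
  have htail : ∀ w : J → ℝ, ∑ j, w j ^ 2 ≤ 1 → ∑ ω : J → Bool, tail T (rs w ω) ≤ N * τ ^ 2 := by
    intro w hw
    unfold tail
    rw [← mul_sum, sum_add_distrib]
    have h1 := sum_exp w T hw
    have h2 : ∑ ω : J → Bool, Real.exp (T * -rs w ω) ≤ N * Real.exp (T ^ 2 / 2) := by
      have h3 := sum_exp w (-T) hw
      have h4 : ∑ ω : J → Bool, Real.exp (T * -rs w ω) = ∑ ω : J → Bool, Real.exp (-T * rs w ω) :=
        sum_congr rfl fun ω _ => by
          congr 1
          ring
      rw [h4]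
      refine h3.trans (le_of_eq ?_)
      rw [neg_sq]
    have h5 : T ^ 2 * Real.exp (-T ^ 2) * (N * Real.exp (T ^ 2 / 2) + N * Real.exp (T ^ 2 / 2)) =
        N * (2 * T ^ 2 * Real.exp (-(T ^ 2) / 2)) := by
      have h6 : Real.exp (-(T ^ 2) / 2) = Real.exp (-T ^ 2) * Real.exp (T ^ 2 / 2) := by
        rw [← Real.exp_add]
        congr 1
        ring
      rw [h6]
      ring
    calc T ^ 2 * Real.exp (-T ^ 2) * (∑ ω : J → Bool, Real.exp (T * rs w ω) +
          ∑ ω : J → Bool, Real.exp (T * -rs w ω))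
        ≤ T ^ 2 * Real.exp (-T ^ 2) *
          (N * Real.exp (T ^ 2 / 2) + N * Real.exp (T ^ 2 / 2)) :=
          mul_le_mul_of_nonneg_left (add_le_add h1 h2) (by positivity)
      _ = N * (2 * T ^ 2 * Real.exp (-(T ^ 2) / 2)) := h5
      _ ≤ N * τ ^ 2 := mul_le_mul_of_nonneg_left hτ2 hN0
  calc ∑ ω : J → Bool, clip T (rs y ω) * clip T (rs z ω)
      ≤ ∑ ω : J → Bool, (rs y ω * rs z ω + (τ * rs y ω ^ 2 + tail T (rs z ω) / τ) / 2 +
          (τ * rs z ω ^ 2 + tail T (rs y ω) / τ) / 2) :=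
        sum_le_sum fun ω _ => clip_mul T τ _ _ hT hT2 hτ
    _ = ∑ ω : J → Bool, rs y ω * rs z ω +
        (τ * ∑ ω : J → Bool, rs y ω ^ 2 + (∑ ω : J → Bool, tail T (rs z ω)) / τ) / 2 +
        (τ * ∑ ω : J → Bool, rs z ω ^ 2 + (∑ ω : J → Bool, tail T (rs y ω)) / τ) / 2 := by
        rw [sum_add_distrib, sum_add_distrib, ← sum_div, ← sum_div, sum_add_distrib,
          sum_add_distrib, ← mul_sum, ← mul_sum, ← sum_div, ← sum_div]
    _ ≤ N * ∑ j, y j * z j + (τ * N + N * τ ^ 2 / τ) / 2 + (τ * N + N * τ ^ 2 / τ) / 2 := by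
        rw [sum_rs_mul]
        have h1 := mul_le_mul_of_nonneg_left (hsq y hy) hτ.le
        have h2 := mul_le_mul_of_nonneg_left (hsq z hz) hτ.le
        have h3 := div_le_div_of_nonneg_right (htail y hy) hτ.le
        have h4 := div_le_div_of_nonneg_right (htail z hz) hτ.le
        linarith
    _ = N * (∑ j, y j * z j + 2 * τ) := by
        field_simp
        ring

end Pool.Agent.J4H91.SD
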