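import Pool.Agent.J4H91.SD.Acc
import Pool.Agent.J4H91.SD.Rad
import Pool.Agent.J4H62.VC.Fun

/-!
# One step: a subset of smaller density
-/

set_option autoImplicit false

namespace Pool.Agent.J4H91.SD

open Finset Matrix
open Pool.Agent.J4H62.VC (sum_prod_ite sum_prod_mem sum_prod_mem2 sq_mean)

variable {V : Type} [Fintype V] [DecidableEq V]

/-- the ordered pairs of adjacent vertices of `W` -/
def prs (G : SimpleGraph V) [DecidableRel G.Adj] (W : Finset V) : Finset (V × V) :=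
  (W ×ˢ W).filter (fun p => G.Adj p.1 p.2)

omit [Fintype V] in
lemma prs_inter (G : SimpleGraph V) [DecidableRel G.Adj] (W S : Finset V) :
    (((prs G (W ∩ S)).card : ℕ) : ℝ) =
      ∑ a ∈ prs G W, (if a.1 ∈ S ∧ a.2 ∈ S then (1 : ℝ) else 0) := by
  rw [sum_boole]
  congr 2
  ext ⟨u, v⟩
  simp only [prs, mem_filter, mem_product, mem_inter]
  tauto

/-- **random sets from random functions** -/
theorem round_set (G : SimpleGraph V) [DecidableRel G.Adj] (W : Finset V) {Ω : Type*} [Fintype Ω]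
    (m : Ω → ℝ) (hm0 : ∀ ω, 0 ≤ m ω) (hm1 : ∑ ω, m ω = 1) (g : Ω → V → ℝ)
    (hg0 : ∀ ω v, 0 ≤ g ω v) (hg1 : ∀ ω v, g ω v ≤ 1) (κ : ℝ) (hκ : 0 ≤ κ)
    (h1 : ∀ v, ∑ ω, m ω * g ω v = 1 / 2) :
    ∃ S ⊆ W, ((prs G S).card : ℝ) - κ * (S.card : ℝ) ^ 2 ≤
      ∑ a ∈ prs G W, ∑ ω, m ω * (g ω a.1 * g ω a.2) - κ * ((W.card : ℝ) / 2) ^ 2 := by
  classical
  set w : Finset V → ℝ := fun S => ∑ ω, m ω * ∏ v, (if v ∈ S then g ω v else 1 - g ω v) with hw
  have hw0 : ∀ S, 0 ≤ w S := by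
    intro S
    refine sum_nonneg fun ω _ => mul_nonneg (hm0 ω) (prod_nonneg fun v _ => ?_)
    by_cases hv : v ∈ S
    · rw [if_pos hv]
      exact hg0 ω v
    · rw [if_neg hv]
      linarith [hg1 ω v]
  have hw1 : ∑ S, w S = 1 := by
    simp only [hw]
    rw [sum_comm]
    have h2 : ∀ ω, ∑ S : Finset V, m ω * ∏ v, (if v ∈ S then g ω v else 1 - g ω v) = m ω := by
      intro ω
      rw [← mul_sum, sum_prod_ite]
      simp
    rw [sum_congr rfl fun ω _ => h2 ω, hm1]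
  have hwv : ∀ u, ∑ S, w S * (if u ∈ S then 1 else 0) = 1 / 2 := by
    intro u
    have e1 : ∑ S, w S * (if u ∈ S then 1 else 0) = ∑ S with u ∈ S, w S := by
      rw [sum_filter]
      refine sum_congr rfl fun S _ => ?_
      split_ifs <;> simp
    rw [e1, ← h1 u]
    simp only [hw]
    rw [sum_comm]
    refine sum_congr rfl fun ω _ => ?_
    rw [← mul_sum, sum_prod_mem]
    congr 1
    rw [← mul_prod_erase univ _ (mem_univ u)]
    rw [if_pos rfl, add_zero, prod_eq_one, mul_one]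
    intro v hv
    rw [if_neg (ne_of_mem_erase hv)]
    ring
  have hwe : ∀ a ∈ prs G W, ∑ S, w S * (if a.1 ∈ S ∧ a.2 ∈ S then 1 else 0) =
      ∑ ω, m ω * (g ω a.1 * g ω a.2) := by
    intro a ha
    have hadj : G.Adj a.1 a.2 := (mem_filter.1 ha).2
    have e1 : ∑ S, w S * (if a.1 ∈ S ∧ a.2 ∈ S then 1 else 0) =
        ∑ S with a.1 ∈ S ∧ a.2 ∈ S, w S := by
      rw [sum_filter]
      refine sum_congr rfl fun S _ => ?_
      split_ifs <;> simp
    rw [e1]
    simp only [hw]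
    rw [sum_comm]
    refine sum_congr rfl fun ω _ => ?_
    rw [← mul_sum, sum_prod_mem2]
    congr 1
    have hw' : a.2 ∈ univ.erase a.1 := mem_erase.2 ⟨hadj.ne.symm, mem_univ _⟩
    rw [← mul_prod_erase univ _ (mem_univ a.1), ← mul_prod_erase _ _ hw']
    rw [if_pos (Or.inl rfl), if_pos (Or.inr rfl), add_zero, add_zero, prod_eq_one, mul_one]
    intro v hv
    have h1 := ne_of_mem_erase hv
    have h2 := ne_of_mem_erase (mem_of_mem_erase hv)
    rw [if_neg (by rintro (h | h); exacts [h2 h, h1 h])]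
    ring
  -- the expected number of edges
  have hE : ∑ S, w S * ((prs G (W ∩ S)).card : ℝ) =
      ∑ a ∈ prs G W, ∑ ω, m ω * (g ω a.1 * g ω a.2) := by
    have e1 : ∀ S : Finset V, w S * ((prs G (W ∩ S)).card : ℝ) =
        ∑ a ∈ prs G W, w S * (if a.1 ∈ S ∧ a.2 ∈ S then 1 else 0) := by
      intro S
      rw [prs_inter, mul_sum]
    rw [sum_congr rfl fun S _ => e1 S, sum_comm]
    exact sum_congr rfl hwe
  have hC : ∑ S, w S * ((W ∩ S).card : ℝ) = (W.card : ℝ) / 2 := by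
    have e1 : ∀ S : Finset V, w S * ((W ∩ S).card : ℝ) =
        ∑ v ∈ W, w S * (if v ∈ S then 1 else 0) := by
      intro S
      rw [← mul_sum]
      congr 1
      rw [sum_boole, ← filter_mem_eq_inter]
    rw [sum_congr rfl fun S _ => e1 S, sum_comm, sum_congr rfl fun v _ => hwv v, sum_const,
      nsmul_eq_mul]
    ring
  have hC2 : ((W.card : ℝ) / 2) ^ 2 ≤ ∑ S, w S * ((W ∩ S).card : ℝ) ^ 2 := by
    rw [← hC]
    exact sq_mean w hw0 hw1 _
  -- some set is at least as good as the mean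
  by_contra hcon
  push Not at hcon
  set B := ∑ a ∈ prs G W, ∑ ω, m ω * (g ω a.1 * g ω a.2) - κ * ((W.card : ℝ) / 2) ^ 2 with hB
  have h2 : ∑ S, w S * B < ∑ S, w S * (((prs G (W ∩ S)).card : ℝ) -
      κ * ((W ∩ S).card : ℝ) ^ 2) := by
    refine sum_lt_sum (fun S _ => mul_le_mul_of_nonneg_left (hcon _ inter_subset_left).le
      (hw0 S)) ?_
    have h3 : ∃ S ∈ (univ : Finset (Finset V)), 0 < w S := by
      by_contra h4
      push Not at h4
      have : ∑ S, w S ≤ 0 := sum_nonpos fun S hS => h4 S hS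
      linarith
    obtain ⟨S, hS, h4⟩ := h3
    exact ⟨S, hS, mul_lt_mul_of_pos_left (hcon _ inter_subset_left) h4⟩
  rw [← sum_mul, hw1, one_mul] at h2
  have h3 : ∑ S, w S * (((prs G (W ∩ S)).card : ℝ) - κ * ((W ∩ S).card : ℝ) ^ 2) =
      ∑ S, w S * ((prs G (W ∩ S)).card : ℝ) - κ * ∑ S, w S * ((W ∩ S).card : ℝ) ^ 2 := by
    rw [mul_sum, ← sum_sub_distrib]
    refine sum_congr rfl fun S _ => ?_
    ring
  rw [h3, hE] at h2
  have h4 := mul_le_mul_of_nonneg_left hC2 hκ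
  linarith

omit [DecidableEq V] in
/-- the energy counted over the pairs in `W` -/
lemma en_eq (G : SimpleGraph V) [DecidableRel G.Adj] (W : Finset V) (x : V → ℝ)
    (hx : ∀ v, v ∉ W → x v = 0) : en G x = ∑ a ∈ prs G W, x a.1 * x a.2 := by
  unfold en prs
  rw [sum_filter, sum_product]
  rw [← sum_subset (subset_univ W)]
  · refine sum_congr rfl fun u _ => ?_
    rw [← sum_subset (subset_univ W)]
    intro v _ hv
    rw [hx v hv, mul_zero, ite_self]
  · intro u _ hu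
    refine sum_eq_zero fun v _ => ?_
    rw [hx u hu, zero_mul, ite_self]

/-- **one step**: if `W` contains no stable set with a quarter of its vertices, and its density is
at most `Λ / r`, then some subset has a density smaller by at least `1 / (128 r T²)` -/
theorem step (G : SimpleGraph V) [DecidableRel G.Adj] (r : ℕ) (hr1 : 1 ≤ r)
    (hr : (G.adjMatrix ℝ).rank ≤ r) (W : Finset V)
    (hst : ∀ S ⊆ W, (∀ u ∈ S, ∀ v ∈ S, ¬ G.Adj u v) → 4 * S.card ≤ W.card)
    (hW : 0 < W.card) (Λ T : ℝ) (hT : 0 < T) (hT2 : 2 ≤ T ^ 2)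
    (hΛ : 1 ≤ Λ) (hτ : 2 * T ^ 2 * Real.exp (-(T ^ 2) / 2) ≤ (1 / (128 * Λ)) ^ 2)
    (p : ℝ) (hp : ((prs G W).card : ℝ) ≤ p * (W.card : ℝ) ^ 2) (hp1 : r * p ≤ Λ)
    (hp2 : 1 / (128 * r * T ^ 2) ≤ p) :
    ∃ S ⊆ W, ((prs G S).card : ℝ) ≤ (p - 1 / (128 * r * T ^ 2)) * (S.card : ℝ) ^ 2 ∧
      (W.card : ℝ) ^ 2 ≤ 512 * Λ * T ^ 2 * (S.card : ℝ) ^ 2 := by
  classical
  obtain ⟨J, hJ, y, hy1, hy2, hy3⟩ := vectors G r hr1 hr W hst
  have hr' : (0 : ℝ) < r := by exact_mod_cast hr1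
  have hW' : (0 : ℝ) < W.card := by exact_mod_cast hW
  set N : ℝ := (Fintype.card (J → Bool) : ℝ) with hN
  have hN0 : 0 < N := by
    rw [hN]
    exact_mod_cast Fintype.card_pos
  set x : (J → Bool) → V → ℝ := fun ω v => clip T (rs (fun j => y j v) ω) with hx
  set σ : ℝ := 1 / (128 * r * T ^ 2) with hσ
  have hσ0 : 0 < σ := by positivity
  have hxT : ∀ ω v, |x ω v| ≤ T := fun ω v => abs_clip_le T _ hT.le
  have hmean : ∀ v, ∑ ω : J → Bool, N⁻¹ * ((1 + x ω v / T) / 2) = 1 / 2 := by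
    intro v
    have e1 : ∑ ω : J → Bool, x ω v = 0 := sum_odd (fun j => y j v) (clip T)
      (fun z => clip_neg T z hT.le)
    have e2 : ∀ ω, N⁻¹ * ((1 + x ω v / T) / 2) = N⁻¹ / 2 + N⁻¹ / (2 * T) * x ω v := by
      intro ω
      field_simp
    rw [sum_congr rfl fun ω _ => e2 ω, sum_add_distrib, ← mul_sum, e1, mul_zero, add_zero,
      sum_const, nsmul_eq_mul, card_univ, ← hN]
    field_simp
  obtain ⟨S, hSW, hS⟩ := round_set G W (Ω := J → Bool) (fun _ => N⁻¹) (fun _ => by positivity)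
    (by
      rw [sum_const, nsmul_eq_mul, card_univ, ← hN]
      field_simp)
    (fun ω v => (1 + x ω v / T) / 2)
    (fun ω v => by
      have h1 := (abs_le.1 (hxT ω v)).1
      have h2 : -1 ≤ x ω v / T := by
        rw [le_div_iff₀ hT]
        linarith
      linarith)
    (fun ω v => by
      have h1 := (abs_le.1 (hxT ω v)).2
      have h2 : x ω v / T ≤ 1 := by
        rw [div_le_iff₀ hT]
        linarith
      linarith) (p - σ) (by linarith) hmean
  refine ⟨S, hSW, ?_⟩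
  -- the mean number of edges
  have hpair : ∀ u v, ∑ ω : J → Bool, N⁻¹ * ((1 + x ω u / T) / 2 * ((1 + x ω v / T) / 2)) ≤
      1 / 4 + (∑ j, y j u * y j v + 2 * (1 / (128 * Λ))) / (4 * T ^ 2) := by
    intro u v
    have e1 : ∀ w, ∑ ω : J → Bool, x ω w = 0 := fun w => sum_odd (fun j => y j w) (clip T)
      (fun z => clip_neg T z hT.le)
    have e2 : ∀ ω, N⁻¹ * ((1 + x ω u / T) / 2 * ((1 + x ω v / T) / 2)) =
        N⁻¹ / 4 + N⁻¹ / (4 * T) * x ω u + N⁻¹ / (4 * T) * x ω v +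
          N⁻¹ / (4 * T ^ 2) * (x ω u * x ω v) := by
      intro ω
      field_simp
      ring
    rw [sum_congr rfl fun ω _ => e2 ω, sum_add_distrib, sum_add_distrib, sum_add_distrib,
      ← mul_sum, ← mul_sum, ← mul_sum, e1, e1]
    simp only [mul_zero, add_zero]
    rw [sum_const, nsmul_eq_mul, card_univ, ← hN]
    have e3 := mean_clip (fun j => y j u) (fun j => y j v) T hT hT2 (hy1 u) (hy1 v)
      (τ := 1 / (128 * Λ)) (by positivity) hτ
    have e4 := mul_le_mul_of_nonneg_left e3 (show 0 ≤ N⁻¹ / (4 * T ^ 2) by positivity)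
    rw [← hN] at e4
    have e5 : N⁻¹ / (4 * T ^ 2) * (N * (∑ j, y j u * y j v + 2 * (1 / (128 * Λ)))) =
        (∑ j, y j u * y j v + 2 * (1 / (128 * Λ))) / (4 * T ^ 2) := by
      field_simp
    rw [e5] at e4
    have e6 : N * (N⁻¹ / 4) = 1 / 4 := by field_simp
    rw [e6]
    linarith
  have hsum : ∑ a ∈ prs G W, ∑ ω : J → Bool,
      N⁻¹ * ((1 + x ω a.1 / T) / 2 * ((1 + x ω a.2 / T) / 2)) ≤
      ((prs G W).card : ℝ) / 4 + (-((W.card : ℝ) ^ 2 / (32 * r)) +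
        ((prs G W).card : ℝ) * (1 / (64 * Λ))) / (4 * T ^ 2) := by
    refine (sum_le_sum fun a _ => hpair a.1 a.2).trans ?_
    rw [sum_add_distrib, sum_const, nsmul_eq_mul, ← sum_div, sum_add_distrib, sum_const,
      nsmul_eq_mul]
    have e1 : ∑ a ∈ prs G W, ∑ j, y j a.1 * y j a.2 ≤ -((W.card : ℝ) ^ 2 / (32 * r)) := by
      rw [sum_comm]
      refine le_trans (le_of_eq ?_) hy3
      exact sum_congr rfl fun j _ => (en_eq G W (y j) (hy2 j)).symm
    have e2 : ((prs G W).card : ℝ) * (1 / 4) = ((prs G W).card : ℝ) / 4 := by ring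
    have e3 : ((prs G W).card : ℝ) * (2 * (1 / (128 * Λ))) =
        ((prs G W).card : ℝ) * (1 / (64 * Λ)) := by
      have : 2 * (1 / (128 * Λ)) = 1 / (64 * Λ) := by
        field_simp
        norm_num
      rw [this]
    rw [e2, e3]
    have e4 : (∑ a ∈ prs G W, ∑ j, y j a.1 * y j a.2 +
        ((prs G W).card : ℝ) * (1 / (64 * Λ))) / (4 * T ^ 2) ≤
        (-((W.card : ℝ) ^ 2 / (32 * r)) + ((prs G W).card : ℝ) * (1 / (64 * Λ))) /
          (4 * T ^ 2) :=
      div_le_div_of_nonneg_right (by linarith) (by positivity)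
    linarith
  have hS' := hS.trans (sub_le_sub_right hsum _)
  -- the error term
  have h1 : ((prs G W).card : ℝ) * (1 / (64 * Λ)) ≤ (W.card : ℝ) ^ 2 / (64 * r) := by
    have e1 : ((prs G W).card : ℝ) * (1 / (64 * Λ)) ≤ p * (W.card : ℝ) ^ 2 * (1 / (64 * Λ)) :=
      mul_le_mul_of_nonneg_right hp (by positivity)
    refine e1.trans ?_
    rw [mul_one_div, div_le_div_iff₀ (by positivity) (by positivity)]
    have e2 := mul_le_mul_of_nonneg_right hp1 (show (0 : ℝ) ≤ (W.card : ℝ) ^ 2 * 64 by positivity)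
    nlinarith
  have h2 : (-((W.card : ℝ) ^ 2 / (32 * r)) + ((prs G W).card : ℝ) * (1 / (64 * Λ))) /
      (4 * T ^ 2) ≤ -(σ * (W.card : ℝ) ^ 2 / 2) := by
    rw [div_le_iff₀ (by positivity)]
    have e1 : -(σ * (W.card : ℝ) ^ 2 / 2) * (4 * T ^ 2) = -((W.card : ℝ) ^ 2 / (64 * r)) := by
      rw [hσ]
      field_simp
      norm_num
    rw [e1]
    have e2 : (W.card : ℝ) ^ 2 / (32 * r) = 2 * ((W.card : ℝ) ^ 2 / (64 * r)) := by
      field_simp
      norm_num
    rw [e2]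
    linarith
  have h3 : ((prs G S).card : ℝ) - (p - σ) * (S.card : ℝ) ^ 2 ≤
      -(σ * (W.card : ℝ) ^ 2 / 4) := by
    refine hS'.trans ?_
    have e1 : (p - σ) * ((W.card : ℝ) / 2) ^ 2 =
        p * (W.card : ℝ) ^ 2 / 4 - σ * (W.card : ℝ) ^ 2 / 4 := by ring
    rw [e1]
    linarith
  have h4 : 0 ≤ σ * (W.card : ℝ) ^ 2 / 4 := by positivity
  refine ⟨by linarith, ?_⟩
  -- the size
  have h5 : (0 : ℝ) ≤ ((prs G S).card : ℝ) := by positivity
  have h6 : σ * (W.card : ℝ) ^ 2 / 4 ≤ (p - σ) * (S.card : ℝ) ^ 2 := by linarith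
  have h7 : σ * (W.card : ℝ) ^ 2 / 4 ≤ Λ / r * (S.card : ℝ) ^ 2 := by
    refine h6.trans (mul_le_mul_of_nonneg_right ?_ (by positivity))
    have : p ≤ Λ / r := by
      rw [le_div_iff₀ hr']
      linarith
    linarith
  have h8 := mul_le_mul_of_nonneg_left h7 (show 0 ≤ 512 * r * T ^ 2 by positivity)
  have e1 : 512 * r * T ^ 2 * (σ * (W.card : ℝ) ^ 2 / 4) = (W.card : ℝ) ^ 2 := by
    rw [hσ]
    field_simp
    norm_num
  have e2 : 512 * r * T ^ 2 * (Λ / r * (S.card : ℝ) ^ 2) = 512 * Λ * T ^ 2 * (S.card : ℝ) ^ 2 := by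
    field_simp
  rw [e1, e2] at h8
  exact h8

end Pool.Agent.J4H91.SD
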